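import Mathlib

namespace Pool.Agent.Results.MP_1f99fc_al.Andre

open Matrix

/-- The irreducible complex characters of `G`. -/
def Irr (G : Type) [Group G] : Set (G → ℂ) :=
  {χ | ∃ V : FDRep ℂ G, CategoryTheory.Simple V ∧ χ = V.character}

/-- A supercharacter theory in the sense of Diaconis and Isaacs: `X` is a partition of `Irr G`,
`K` a partition of `G` with as many blocks, `{1}` is a block, and each
`σ_B = ∑_{ψ ∈ B} ψ(1) ψ` is constant on every block of `K`. -/
structure IsSuperTheory (G : Type) [Group G] (X : Set (Set (G → ℂ))) (K : Set (Set G)) :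
    Prop where
  X_nonempty : ∀ B ∈ X, B.Nonempty
  X_sub : ∀ B ∈ X, B ⊆ Irr G
  X_cover : ∀ χ ∈ Irr G, ∃! B, B ∈ X ∧ χ ∈ B
  K_part : Setoid.IsPartition K
  card_eq : X.ncard = K.ncard
  one_mem : {1} ∈ K
  const : ∀ B ∈ X, ∀ C ∈ K, ∀ g ∈ C, ∀ h ∈ C, ∑ᶠ ψ ∈ B, ψ 1 * ψ g = ∑ᶠ ψ ∈ B, ψ 1 * ψ h

theorem diag_mul {F : Type} [Field F] {n : ℕ} {A B : Matrix (Fin n) (Fin n) F}
    (hA : ∀ i j, j < i → A i j = 0) (hB : ∀ i j, j < i → B i j = 0) (i : Fin n) :
    (A * B) i i = A i i * B i i := by
  rw [Matrix.mul_apply]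
  apply Finset.sum_eq_single i
  · intro k _ hk
    rcases lt_or_gt_of_ne hk with h | h
    · rw [hA i k h, zero_mul]
    · rw [hB k i h, mul_zero]
  · simp

theorem low_mul {F : Type} [Field F] {n : ℕ} {A B : Matrix (Fin n) (Fin n) F}
    (hA : ∀ i j, j < i → A i j = 0) (hB : ∀ i j, j < i → B i j = 0) (i j : Fin n) (h : j < i) :
    (A * B) i j = 0 := by
  rw [Matrix.mul_apply]
  apply Finset.sum_eq_zero
  intro k _
  rcases lt_or_ge k i with h1 | h1
  · rw [hA i k h1, zero_mul]
  · rw [hB k j (lt_of_lt_of_le h h1), mul_zero]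

theorem low_inv {F : Type} [Field F] {n : ℕ} (g : GL (Fin n) F)
    (hg : ∀ i j, j < i → (g : Matrix (Fin n) (Fin n) F) i j = 0) (i j : Fin n) (h : j < i) :
    ((g⁻¹ : GL (Fin n) F) : Matrix (Fin n) (Fin n) F) i j = 0 := by
  have h1 : BlockTriangular (g : Matrix (Fin n) (Fin n) F) id := fun i j h => hg i j h
  let := g.invertible
  have h2 := blockTriangular_inv_of_blockTriangular h1
  rw [Matrix.coe_units_inv]
  exact h2 h

/-- The group `U_n(F)` of upper unitriangular matrices. -/
def U (n : ℕ) (F : Type) [Field F] : Subgroup (GL (Fin n) F) where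
  carrier := {g | (∀ i j, j < i → (g : Matrix (Fin n) (Fin n) F) i j = 0) ∧
    ∀ i, (g : Matrix (Fin n) (Fin n) F) i i = 1}
  mul_mem' := by
    rintro a b ⟨ha, ha'⟩ ⟨hb, hb'⟩
    refine ⟨fun i j h => ?_, fun i => ?_⟩
    · rw [Units.val_mul]; exact low_mul ha hb i j h
    · rw [Units.val_mul, diag_mul ha hb, ha', hb', one_mul]
  one_mem' := ⟨fun i j h => by simp [Matrix.one_apply, h.ne'], fun i => by simp⟩
  inv_mem' := by
    rintro g ⟨hg, hg'⟩
    refine ⟨low_inv g hg, fun i => ?_⟩
    have h := diag_mul hg (low_inv g hg) i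
    rw [← Units.val_mul, mul_inv_cancel, hg', one_mul] at h
    rw [← h]; simp

/-- The underlying matrix of an element of `U_n(F)`. -/
def mat {n : ℕ} {F : Type} [Field F] (g : U n F) : Matrix (Fin n) (Fin n) F :=
  ((g : GL (Fin n) F) : Matrix (Fin n) (Fin n) F)

/-- The space `𝔫` of strictly upper triangular matrices. -/
def Nil (n : ℕ) (F : Type) [Field F] : Submodule F (Matrix (Fin n) (Fin n) F) where
  carrier := {y | ∀ i j, j ≤ i → y i j = 0}
  add_mem' := by
    intro a b ha hb i j h
    simp [ha i j h, hb i j h]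
  zero_mem' := fun _ _ _ => rfl
  smul_mem' := by
    intro c y hy i j h
    simp [hy i j h]

/-- `g - 1` as an element of `𝔫`. -/
def subOne {n : ℕ} {F : Type} [Field F] (g : U n F) : Nil n F :=
  ⟨mat g - 1, by
    intro i j h
    rcases h.eq_or_lt with h | h
    · subst h; simp [mat, g.2.2 j]
    · simp [mat, g.2.1 i j h, Matrix.one_apply, h.ne']⟩

/-- The two-sided orbit `U λ U` of the functional `λ : y ↦ a y_{ij}`: the functionals
`y ↦ λ (u y v)` on `𝔫`. -/
def boxOrbit {n : ℕ} {F : Type} [Field F] (i j : Fin n) (a : F) :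
    Set (Module.Dual F (Nil n F)) :=
  {μ | ∃ u v : U n F, ∀ y : Nil n F, μ y = a * (mat u * (y : Matrix (Fin n) (Fin n) F) * mat v) i j}

/-- The orbit sum `g ↦ ∑_{μ ∈ U λ U} θ (μ (g - 1))` of the single box `(i, j)` with label `a`. -/
noncomputable def boxSum {n : ℕ} {F : Type} [Field F] (θ : AddChar F ℂ) (i j : Fin n) (a : F)
    (g : U n F) : ℂ :=
  ∑ᶠ μ ∈ boxOrbit i j a, θ (μ (subOne g))

/-- The theory contains every single-box supercharacter as an irreducible character. -/
def ContainsBoxes {n : ℕ} {F : Type} [Field F] (θ : AddChar F ℂ)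
    (X : Set (Set (U n F → ℂ))) : Prop :=
  ∀ i j : Fin n, i < j → ∀ a : F, a ≠ 0 →
    ∃ χ : U n F → ℂ, {χ} ∈ X ∧ ∃ c : ℝ, 0 < c ∧ ∀ g, χ g = c * boxSum θ i j a g

/-- The superclass of `x` in the theory of André: `{g | g - 1 ∈ U (x - 1) U}`. -/
def andreClass {n : ℕ} {F : Type} [Field F] (x : U n F) : Set (U n F) :=
  {g | ∃ u v : U n F, mat g - 1 = mat u * (mat x - 1) * mat v}

section proofs

variable {n : ℕ} {F : Type} [Field F]

theorem mat_mul (g h : U n F) : mat (g * h) = mat g * mat h := rfl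
theorem mat_one : mat (1 : U n F) = 1 := rfl
theorem mat_low (g : U n F) (i j : Fin n) (h : j < i) : mat g i j = 0 := g.2.1 i j h
theorem mat_diag (g : U n F) (i : Fin n) : mat g i i = 1 := g.2.2 i

/-- elementary matrices -/
noncomputable def el (i k : Fin n) (h : i < k) (t : F) : U n F :=
  ⟨Matrix.GeneralLinearGroup.mkOfDetNeZero (transvection i k t)
      (by rw [det_transvection_of_ne i k h.ne]; exact one_ne_zero), by
    refine ⟨fun a b hab => ?_, fun a => ?_⟩
    · show transvection i k t a b = 0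
      have : ¬ (i = a ∧ k = b) := by
        rintro ⟨rfl, rfl⟩; exact absurd h (not_lt.2 hab.le)
      simp [transvection, Matrix.one_apply, hab.ne', Matrix.single_apply, this]
    · show transvection i k t a a = 1
      have : ¬ (i = a ∧ k = a) := by
        rintro ⟨rfl, rfl⟩; exact absurd h (lt_irrefl _)
      simp [transvection, Matrix.single_apply, this]⟩

theorem mat_el (i k : Fin n) (h : i < k) (t : F) : mat (el i k h t) = transvection i k t := rfl

theorem nil_mul (u v : U n F) (y : Matrix (Fin n) (Fin n) F) (hy : y ∈ Nil n F) :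
    mat u * y * mat v ∈ Nil n F := by
  intro i j h
  rw [Matrix.mul_apply]
  apply Finset.sum_eq_zero
  intro l _
  rcases lt_or_ge j l with h1 | h1
  · rw [mat_low v l j h1, mul_zero]
  · rw [Matrix.mul_apply, Finset.sum_eq_zero, zero_mul]
    intro k _
    rcases lt_or_ge k i with h2 | h2
    · rw [mat_low u i k h2, zero_mul]
    · rw [hy k l (h1.trans (h.trans h2)), mul_zero]

/-- a position whose entry can be cleared -/
def Victim (x : Matrix (Fin n) (Fin n) F) (p : Fin n × Fin n) : Prop :=
  x p.1 p.2 ≠ 0 ∧ ((∃ l, l < p.2 ∧ x p.1 l ≠ 0) ∨ ∃ m, p.1 < m ∧ x m p.2 ≠ 0)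

def Sig (p q : Fin n × Fin n) : Prop := q.1 < p.1 ∨ (p.1 = q.1 ∧ p.2 < q.2)

theorem Sig.trans' {p q r : Fin n × Fin n} (h1 : Sig p q) (h2 : Sig q r) : Sig p r := by
  unfold Sig at *
  rcases h1 with h1 | ⟨h1, h1'⟩ <;> rcases h2 with h2 | ⟨h2, h2'⟩
  · exact Or.inl (h2.trans h1)
  · exact Or.inl (h2 ▸ h1)
  · exact Or.inl (h1 ▸ h2)
  · exact Or.inr ⟨h1.trans h2, h1'.trans h2'⟩

theorem Sig.total (p q : Fin n × Fin n) : Sig p q ∨ p = q ∨ Sig q p := by
  unfold Sig
  rcases lt_trichotomy p.1 q.1 with h | h | h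
  · exact Or.inr (Or.inr (Or.inl h))
  · rcases lt_trichotomy p.2 q.2 with h' | h' | h'
    · exact Or.inl (Or.inr ⟨h, h'⟩)
    · exact Or.inr (Or.inl (Prod.ext h h'))
    · exact Or.inr (Or.inr (Or.inr ⟨h.symm, h'⟩))
  · exact Or.inl (Or.inl h)

theorem Sig.irrefl' (p : Fin n × Fin n) : ¬ Sig p p := by
  unfold Sig
  rintro (h | ⟨_, h⟩) <;> exact lt_irrefl _ h

theorem exists_first (P : Fin n × Fin n → Prop) (h : ∃ p, P p) :
    ∃ p, P p ∧ ∀ q, P q → ¬ Sig q p := by
  classical
  obtain ⟨p0, hp0⟩ := h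
  obtain ⟨p, hp, hmin⟩ := Finset.exists_min_image (Finset.univ.filter P)
    (fun p => toLex (OrderDual.toDual p.1, p.2)) ⟨p0, by simpa using hp0⟩
  refine ⟨p, by simpa using hp, fun q hq hs => ?_⟩
  have h1 := hmin q (by simpa using hq)
  apply absurd h1 (not_le.2 _)
  rw [Prod.Lex.toLex_lt_toLex]
  rcases hs with hs | ⟨hs, hs'⟩
  · exact Or.inl (by simpa using hs)
  · exact Or.inr ⟨by simpa using hs, hs'⟩

theorem step (x x' : Matrix (Fin n) (Fin n) F) (p : Fin n × Fin n)
    (hmin : ∀ q, Victim x q → ¬ Sig q p) (hp : x' p.1 p.2 = 0)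
    (hsame : ∀ q, Sig q p → x' q.1 q.2 = x q.1 q.2) (q : Fin n × Fin n) (hq : Victim x' q) :
    Sig p q := by
  rcases Sig.total p q with h | h | h
  · exact h
  · subst h; exact absurd hp hq.1
  · exfalso
    apply hmin q _ h
    obtain ⟨h1, h2⟩ := hq
    refine ⟨by rwa [hsame q h] at h1, ?_⟩
    rcases h2 with ⟨l, hl, hl'⟩ | ⟨m, hm, hm'⟩
    · refine Or.inl ⟨l, hl, ?_⟩
      have : Sig (q.1, l) p := Sig.trans' (show Sig (q.1, l) q from Or.inr ⟨rfl, hl⟩) h
      rwa [hsame _ this] at hl'
    · refine Or.inr ⟨m, hm, ?_⟩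
      have : Sig (m, q.2) p := Sig.trans' (show Sig (m, q.2) q from Or.inl hm) h
      rwa [hsame _ this] at hm'

theorem kill (x : Matrix (Fin n) (Fin n) F) (p : Fin n × Fin n) (hv : Victim x p)
    (hmin : ∀ q, Victim x q → ¬ Sig q p) :
    ∃ u v : U n F, ∀ q, Victim (mat u * x * mat v) q → Sig p q := by
  obtain ⟨k, l'⟩ := p
  obtain ⟨h1, h2⟩ := hv
  simp only at h1 h2
  rcases h2 with ⟨l, hl, hl'⟩ | ⟨m, hm, hm'⟩
  · refine ⟨1, el l l' hl (-(x k l' / x k l)), ?_⟩
    rw [mat_one, Matrix.one_mul, mat_el]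
    apply step x _ (k, l') hmin
    · simp only [mul_transvection_apply_same]
      field_simp; ring
    · rintro ⟨a, b⟩ hs
      by_cases hb : b = l'
      · subst hb
        simp only [mul_transvection_apply_same]
        have ha : k < a := by
          rcases hs with hs | ⟨_, hs⟩
          · exact hs
          · exact absurd hs (lt_irrefl _)
        have : x a l = 0 := by
          by_contra hne
          exact hmin (k, l) ⟨hl', Or.inr ⟨a, ha, hne⟩⟩ (Or.inr ⟨rfl, hl⟩)
        rw [this]; ring
      · exact mul_transvection_apply_of_ne _ _ _ _ hb _ _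
  · refine ⟨el k m hm (-(x k l' / x m l')), 1, ?_⟩
    rw [mat_one, Matrix.mul_one, mat_el]
    apply step x _ (k, l') hmin
    · simp only [transvection_mul_apply_same]
      field_simp; ring
    · rintro ⟨a, b⟩ hs
      by_cases ha : a = k
      · subst ha
        simp only [transvection_mul_apply_same]
        have hb : b < l' := by
          rcases hs with hs | ⟨_, hs⟩
          · exact absurd hs (lt_irrefl _)
          · exact hs
        have : x m b = 0 := by
          by_contra hne
          exact hmin (m, l') ⟨hm', Or.inl ⟨b, hb, hne⟩⟩ (Or.inl hm)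
        rw [this]; ring
      · exact transvection_mul_apply_of_ne _ _ _ _ ha _ _

theorem exists_rook (x : Matrix (Fin n) (Fin n) F) :
    ∃ u v : U n F, ∀ q, ¬ Victim (mat u * x * mat v) q := by
  classical
  have key : ∀ N : ℕ, ∀ x : Matrix (Fin n) (Fin n) F,
      (Finset.univ.filter (fun q => ∃ p, Victim x p ∧ (p = q ∨ Sig p q))).card ≤ N →
      ∃ u v : U n F, ∀ q, ¬ Victim (mat u * x * mat v) q := by
    intro N
    induction N with
    | zero =>
      intro x hx
      refine ⟨1, 1, fun q hq => ?_⟩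
      rw [mat_one, Matrix.one_mul, Matrix.mul_one] at hq
      have h0 := Finset.card_eq_zero.1 (Nat.le_zero.1 hx)
      have : q ∈ Finset.univ.filter (fun q => ∃ p, Victim x p ∧ (p = q ∨ Sig p q)) := by
        simp only [Finset.mem_filter, Finset.mem_univ, true_and]
        exact ⟨q, hq, Or.inl rfl⟩
      rw [h0] at this
      simp at this
    | succ N ih =>
      intro x hx
      by_cases hex : ∃ p, Victim x p
      · obtain ⟨p, hp, hmin⟩ := exists_first _ hex
        obtain ⟨u, v, huv⟩ := kill x p hp hmin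
        obtain ⟨u', v', h'⟩ := ih (mat u * x * mat v) (by
          apply Nat.le_of_lt_succ
          refine lt_of_lt_of_le (Finset.card_lt_card ?_) hx
          rw [Finset.ssubset_iff_of_subset]
          · refine ⟨p, ?_, ?_⟩
            · simp only [Finset.mem_filter, Finset.mem_univ, true_and]
              exact ⟨p, hp, Or.inl rfl⟩
            · simp only [Finset.mem_filter, Finset.mem_univ, true_and]
              rintro ⟨r, hr, h | h⟩
              · subst h; exact Sig.irrefl' _ (huv r hr)
              · exact Sig.irrefl' _ ((huv r hr).trans' h)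
          · intro q hq
            simp only [Finset.mem_filter, Finset.mem_univ, true_and] at hq ⊢
            obtain ⟨r, hr, h⟩ := hq
            refine ⟨p, hp, Or.inr ?_⟩
            rcases h with h | h
            · subst h; exact huv r hr
            · exact (huv r hr).trans' h)
        refine ⟨u' * u, v * v', ?_⟩
        rw [mat_mul, mat_mul]
        simpa only [Matrix.mul_assoc] using h'
      · refine ⟨1, 1, fun q hq => hex ⟨q, ?_⟩⟩
        rwa [mat_one, Matrix.one_mul, Matrix.mul_one] at hq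
  exact key _ x le_rfl

/-- sum over all pairs -/
noncomputable def Fsum [Fintype (U n F)] (θ : AddChar F ℂ) (i j : Fin n) (a : F)
    (x : Matrix (Fin n) (Fin n) F) : ℂ :=
  ∑ v : U n F, ∑ u : U n F, θ (a * (mat u * x * mat v) i j)

theorem Fsum_inv [Fintype (U n F)] (θ : AddChar F ℂ) (i j : Fin n) (a : F)
    (x : Matrix (Fin n) (Fin n) F) (u0 v0 : U n F) :
    Fsum θ i j a (mat u0 * x * mat v0) = Fsum θ i j a x := by
  unfold Fsum
  rw [← Equiv.sum_comp (Equiv.mulLeft v0) (fun v => ∑ u : U n F, θ (a * (mat u * x * mat v) i j))]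
  apply Finset.sum_congr rfl
  intro v _
  rw [← Equiv.sum_comp (Equiv.mulRight u0)
    (fun u => θ (a * (mat u * x * mat (Equiv.mulLeft v0 v)) i j))]
  apply Finset.sum_congr rfl
  intro u _
  simp only [Equiv.coe_mulLeft, Equiv.coe_mulRight, mat_mul, Matrix.mul_assoc]

/-- the functional attached to a pair -/
def fn (i j : Fin n) (a : F) (p : U n F × U n F) : Module.Dual F (Nil n F) where
  toFun y := a * (mat p.1 * (y : Matrix (Fin n) (Fin n) F) * mat p.2) i j
  map_add' y z := by simp [Matrix.mul_add, Matrix.add_mul, mul_add]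
  map_smul' c y := by simp [mul_left_comm]

theorem fn_apply (i j : Fin n) (a : F) (p : U n F × U n F) (y : Nil n F) :
    fn i j a p y = a * (mat p.1 * (y : Matrix (Fin n) (Fin n) F) * mat p.2) i j := rfl

theorem fn_eq_iff (i j : Fin n) (a : F) (p q : U n F × U n F) :
    fn i j a p = fn i j a q ↔ fn i j a (p.1 * q.1⁻¹, q.2⁻¹ * p.2) = fn i j a (1, 1) := by
  have e1 : ∀ g : U n F, mat g⁻¹ * mat g = 1 := fun g => by rw [← mat_mul, inv_mul_cancel, mat_one]
  have e2 : ∀ g : U n F, mat g * mat g⁻¹ = 1 := fun g => by rw [← mat_mul, mul_inv_cancel, mat_one]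
  constructor
  · intro h
    ext y
    have := LinearMap.congr_fun h ⟨_, nil_mul q.1⁻¹ q.2⁻¹ y y.2⟩
    simp only [fn_apply, mat_mul, mat_one] at this ⊢
    simp only [Matrix.mul_assoc] at this ⊢
    rw [this, e1, ← Matrix.mul_assoc (mat q.1), e2]
  · intro h
    ext y
    have := LinearMap.congr_fun h ⟨_, nil_mul q.1 q.2 y y.2⟩
    simp only [fn_apply, mat_mul, mat_one] at this ⊢
    simp only [Matrix.mul_assoc, Matrix.one_mul, Matrix.mul_one] at this ⊢
    rw [← this, ← Matrix.mul_assoc (mat q.1⁻¹), e1, ← Matrix.mul_assoc (mat q.2), e2]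
    simp only [Matrix.one_mul]

theorem Fsum_eq [Fintype (U n F)] (θ : AddChar F ℂ) (i j : Fin n) (a : F) :
    ∃ s : ℂ, ∀ g : U n F, Fsum θ i j a (mat g - 1) = s * boxSum θ i j a g := by
  classical
  refine ⟨((Finset.univ.filter (fun p => fn i j a p = fn i j a (1, 1))).card : ℂ), fun g => ?_⟩
  have h1 : boxOrbit i j a = ((Finset.univ.image (fn i j a) : Finset _) : Set _) := by
    ext μ
    simp only [boxOrbit, Set.mem_setOf_eq, Finset.coe_image, Finset.coe_univ, Set.image_univ,
      Set.mem_range]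
    constructor
    · rintro ⟨u, v, h⟩
      exact ⟨(u, v), LinearMap.ext fun y => (h y).symm⟩
    · rintro ⟨p, rfl⟩
      exact ⟨p.1, p.2, fun y => rfl⟩
  have h2 : Fsum θ i j a (mat g - 1) = ∑ p : U n F × U n F, θ (fn i j a p (subOne g)) := by
    unfold Fsum
    rw [Fintype.sum_prod_type_right]
    rfl
  rw [h2, boxSum, h1, finsum_mem_coe_finset,
    Finset.sum_comp (fun μ : Module.Dual F (Nil n F) => θ (μ (subOne g))) (fn i j a),
    Finset.mul_sum]
  apply Finset.sum_congr rfl
  intro μ hμ
  obtain ⟨q, _, rfl⟩ := Finset.mem_image.1 hμ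
  rw [nsmul_eq_mul]
  congr 2
  apply Finset.card_bij (fun p _ => (p.1 * q.1⁻¹, q.2⁻¹ * p.2))
  · intro p hp
    simp only [Finset.mem_filter, Finset.mem_univ, true_and] at hp ⊢
    exact (fn_eq_iff i j a p q).1 hp
  · intro p _ p' _ h
    simp only [Prod.mk.injEq, mul_left_inj, mul_right_inj] at h
    exact Prod.ext h.1 h.2
  · intro r hr
    simp only [Finset.mem_filter, Finset.mem_univ, true_and] at hr ⊢
    refine ⟨(r.1 * q.1, q.2 * r.2), ?_, by simp⟩
    rw [fn_eq_iff]
    simpa using hr

theorem entry_congr (u v : U n F) (z z' : Matrix (Fin n) (Fin n) F) (i j : Fin n)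
    (h : ∀ k l, i ≤ k → l ≤ j → z k l = z' k l) :
    (mat u * z * mat v) i j = (mat u * z' * mat v) i j := by
  rw [Matrix.mul_apply, Matrix.mul_apply]
  apply Finset.sum_congr rfl
  intro l _
  rcases lt_or_ge j l with h1 | h1
  · rw [mat_low v l j h1, mul_zero, mul_zero]
  · congr 1
    rw [Matrix.mul_apply, Matrix.mul_apply]
    apply Finset.sum_congr rfl
    intro k _
    rcases lt_or_ge k i with h2 | h2
    · rw [mat_low u i k h2, zero_mul, zero_mul]
    · rw [h k l h2 h1]

theorem entry_single (u v : U n F) (i j : Fin n) (c : F) :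
    (mat u * single i j c * mat v) i j = c := by
  rw [Matrix.mul_apply, Finset.sum_eq_single j]
  · simp [mat_diag]
  · intro l _ hl
    simp [hl]
  · simp

theorem Fsum_add [Fintype (U n F)] (θ : AddChar F ℂ) (i j : Fin n) (a c : F)
    (z : Matrix (Fin n) (Fin n) F) :
    Fsum θ i j a (z + single i j c) = θ (a * c) * Fsum θ i j a z := by
  unfold Fsum
  simp only [Finset.mul_sum]
  apply Finset.sum_congr rfl
  intro v _
  apply Finset.sum_congr rfl
  intro u _
  rw [Matrix.mul_add, Matrix.add_mul, Matrix.add_apply, entry_single, mul_add, add_comm,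
    AddChar.map_add_eq_mul]

theorem inner [Fintype (U n F)] (θ : AddChar F ℂ) (hθ : θ ≠ 1) (i j : Fin n) (a : F) (ha : a ≠ 0)
    (w : Matrix (Fin n) (Fin n) F) (k : Fin n) (hk : i < k) (hw : w k j ≠ 0) :
    ∑ u : U n F, θ (a * (mat u * w) i j) = 0 := by
  obtain ⟨t, ht⟩ := AddChar.ne_one_iff.1 hθ
  have h := Equiv.sum_comp (Equiv.mulRight (el i k hk (t / (a * w k j))))
    (fun u : U n F => θ (a * (mat u * w) i j))
  have h2 : ∀ u : U n F, θ (a * (mat (Equiv.mulRight (el i k hk (t / (a * w k j))) u) * w) i j) =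
      θ t * θ (a * (mat u * w) i j) := by
    intro u
    rw [← AddChar.map_add_eq_mul]
    congr 1
    simp only [Equiv.coe_mulRight, mat_mul, mat_el, transvection, Matrix.mul_add, Matrix.add_mul,
      Matrix.mul_one, Matrix.add_apply]
    have : (mat u * single i k (t / (a * w k j)) * w) i j = t / (a * w k j) * w k j := by
      rw [Matrix.mul_apply, Finset.sum_eq_single k]
      · simp [mat_diag]
      · intro l _ hl
        simp [hl]
      · simp
    rw [this]
    field_simp
    ring
  simp only [h2, ← Finset.mul_sum] at h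
  have h3 : (θ t - 1) * ∑ u : U n F, θ (a * (mat u * w) i j) = 0 := by
    rw [sub_mul, h, one_mul, sub_self]
  rcases mul_eq_zero.1 h3 with h4 | h4
  · exact absurd (sub_eq_zero.1 h4) ht
  · exact h4

theorem inner' [Fintype (U n F)] (θ : AddChar F ℂ) (i j : Fin n) (a : F)
    (w : Matrix (Fin n) (Fin n) F) (hw : ∀ k, i ≤ k → w k j = 0) :
    ∑ u : U n F, θ (a * (mat u * w) i j) = (Fintype.card (U n F) : ℕ) := by
  have : ∀ u : U n F, θ (a * (mat u * w) i j) = 1 := by
    intro u
    rw [Matrix.mul_apply, Finset.sum_eq_zero, mul_zero, AddChar.map_zero_eq_one]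
    intro k _
    rcases lt_or_ge k i with h2 | h2
    · rw [mat_low u i k h2, zero_mul]
    · rw [hw k h2, mul_zero]
  simp [this]

theorem Fsum_ne [Fintype (U n F)] (θ : AddChar F ℂ) (hθ : θ ≠ 1) (i j : Fin n) (a : F)
    (ha : a ≠ 0) (z : Matrix (Fin n) (Fin n) F) (hrow : ∀ l, l ≤ j → z i l = 0)
    (hcol : ∀ k, i ≤ k → z k j = 0) : Fsum θ i j a z ≠ 0 := by
  have hpos : 0 < (Fsum θ i j a z).re := by
    unfold Fsum
    rw [Complex.re_sum]
    apply Finset.sum_pos'
    · intro v _
      simp only [Matrix.mul_assoc]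
      by_cases h : ∃ k, i < k ∧ (z * mat v) k j ≠ 0
      · obtain ⟨k, hk, hw⟩ := h
        rw [inner θ hθ i j a ha _ k hk hw]; simp
      · rw [inner' θ i j a]
        · simp
        · intro k hk
          rcases hk.eq_or_lt with hk | hk
          · subst hk
            rw [Matrix.mul_apply, Finset.sum_eq_zero]
            intro l _
            rcases lt_or_ge j l with h1 | h1
            · rw [mat_low v l j h1, mul_zero]
            · rw [hrow l h1, zero_mul]
          · by_contra hne
            exact h ⟨k, hk, hne⟩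
    · refine ⟨1, Finset.mem_univ _, ?_⟩
      simp only [mat_one, Matrix.mul_one]
      rw [inner' θ i j a z hcol]
      simp only [Complex.natCast_re, Nat.cast_pos]
      exact Fintype.card_pos
  intro h
  rw [h] at hpos
  simp at hpos

theorem rook_unique [Fintype (U n F)] (θ : AddChar F ℂ) (hθ : θ ≠ 1)
    (x x' : Matrix (Fin n) (Fin n) F) (hx : x ∈ Nil n F) (hx' : x' ∈ Nil n F)
    (hr : ∀ q, ¬ Victim x q) (hr' : ∀ q, ¬ Victim x' q)
    (h : ∀ i j, i < j → ∀ a : F, a ≠ 0 → Fsum θ i j a x = Fsum θ i j a x') : x = x' := by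
  have key : ∀ d : ℕ, ∀ i j : Fin n, j.val - i.val ≤ d → x i j = x' i j := by
    intro d
    induction d with
    | zero =>
      intro i j hij
      have : j ≤ i := by rw [Fin.le_def]; omega
      rw [hx i j this, hx' i j this]
    | succ d ih =>
      intro i j hij
      rcases le_or_gt j i with hji | hji
      · rw [hx i j hji, hx' i j hji]
      have hin : ∀ k l : Fin n, i ≤ k → l ≤ j → (k ≠ i ∨ l ≠ j) → x k l = x' k l := by
        intro k l hk hl hne
        apply ih
        rw [Fin.le_def] at hk hl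
        rw [Fin.lt_def] at hji
        rcases hne with hne | hne
        · have : k.val ≠ i.val := fun e => hne (Fin.ext e)
          omega
        · have : l.val ≠ j.val := fun e => hne (Fin.ext e)
          omega
      by_cases hc : (∃ l, l < j ∧ x i l ≠ 0) ∨ ∃ m, i < m ∧ x m j ≠ 0
      · have hc' : (∃ l, l < j ∧ x' i l ≠ 0) ∨ ∃ m, i < m ∧ x' m j ≠ 0 := by
          rcases hc with ⟨l, hl, hl'⟩ | ⟨m, hm, hm'⟩
          · exact Or.inl ⟨l, hl, by rwa [← hin i l le_rfl hl.le (Or.inr hl.ne)]⟩
          · exact Or.inr ⟨m, hm, by rwa [← hin m j hm.le le_rfl (Or.inl hm.ne')]⟩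
        have e1 : x i j = 0 := by
          by_contra hne; exact hr (i, j) ⟨hne, hc⟩
        have e2 : x' i j = 0 := by
          by_contra hne; exact hr' (i, j) ⟨hne, hc'⟩
        rw [e1, e2]
      · push Not at hc
        set z := x - single i j (x i j) with hz
        set z' := x' - single i j (x' i j) with hz'
        have hzz : ∀ a, Fsum θ i j a z = Fsum θ i j a z' := by
          intro a
          unfold Fsum
          apply Finset.sum_congr rfl
          intro v _
          apply Finset.sum_congr rfl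
          intro u _
          rw [entry_congr u v z z' i j]
          intro k l hk hl
          by_cases hkl : k ≠ i ∨ l ≠ j
          · have : ¬ (i = k ∧ j = l) := by
              rintro ⟨rfl, rfl⟩; simp at hkl
            simp [hz, hz', hin k l hk hl hkl, this]
          · push Not at hkl
            obtain ⟨rfl, rfl⟩ := hkl
            simp [hz, hz']
        have hne : ∀ a, a ≠ 0 → Fsum θ i j a z ≠ 0 := by
          intro a ha
          apply Fsum_ne θ hθ i j a ha
          · intro l hl
            rcases hl.eq_or_lt with hl | hl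
            · subst hl; simp [hz]
            · simp [hz, hc.1 l hl, hl.ne']
          · intro k hk
            rcases hk.eq_or_lt with hk | hk
            · subst hk; simp [hz]
            · simp [hz, hc.2 k hk, hk.ne]
        by_contra hd
        have hd' : x i j - x' i j ≠ 0 := sub_ne_zero.2 hd
        obtain ⟨t, ht⟩ := AddChar.ne_one_iff.1 hθ
        have ht0 : t ≠ 0 := by
          rintro rfl; exact ht (AddChar.map_zero_eq_one θ)
        have ha : t / (x i j - x' i j) ≠ 0 := div_ne_zero ht0 hd'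
        have h1 := h i j hji _ ha
        have ex : x = z + single i j (x i j) := by simp [hz]
        have ex' : x' = z' + single i j (x' i j) := by simp [hz']
        have f1 := Fsum_add θ i j (t / (x i j - x' i j)) (x i j) z
        have f2 := Fsum_add θ i j (t / (x i j - x' i j)) (x' i j) z'
        rw [← ex] at f1
        rw [← ex', ← hzz] at f2
        have h2 := mul_right_cancel₀ (hne _ ha) (f1.symm.trans (h1.trans f2))
        have h3 : t / (x i j - x' i j) * x i j = t + t / (x i j - x' i j) * x' i j := by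
          field_simp; ring
        rw [h3, AddChar.map_add_eq_mul] at h2
        have h4 : θ (t / (x i j - x' i j) * x' i j) ≠ 0 := by
          intro h0
          have := θ.map_add_eq_mul (t / (x i j - x' i j) * x' i j) (-(t / (x i j - x' i j) * x' i j))
          rw [add_neg_cancel, AddChar.map_zero_eq_one, h0, zero_mul] at this
          exact one_ne_zero this
        apply ht
        exact mul_right_cancel₀ h4 (by rw [h2, one_mul])
  ext i j
  exact key _ i j le_rfl

end proofs

theorem result (n : ℕ) (F : Type) [Field F] [Finite F] (θ : AddChar F ℂ) (hθ : θ ≠ 1)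
    (X : Set (Set (U n F → ℂ))) (K : Set (Set (U n F))) (hT : IsSuperTheory (U n F) X K)
    (hX : ContainsBoxes θ X) : ∀ C ∈ K, ∀ x ∈ C, C ⊆ andreClass x := by
  classical
  intro C hC x hx g hg
  let : Fintype (U n F) := Fintype.ofFinite _
  have hF : ∀ i j, i < j → ∀ a : F, a ≠ 0 →
      Fsum θ i j a (mat g - 1) = Fsum θ i j a (mat x - 1) := by
    intro i j hij a ha
    obtain ⟨χ, hχ, c, hc, hcχ⟩ := hX i j hij a ha
    obtain ⟨s, hs⟩ := Fsum_eq θ i j a
    have h1 := hT.const _ hχ C hC g hg x hx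
    rw [finsum_mem_singleton, finsum_mem_singleton] at h1
    have h2 : χ 1 ≠ 0 := by
      rw [hcχ]
      apply mul_ne_zero (by exact_mod_cast hc.ne')
      intro h0
      have h3 := hs 1
      rw [h0, mul_zero, mat_one, sub_self] at h3
      exact Fsum_ne θ hθ i j a ha 0 (fun _ _ => rfl) (fun _ _ => rfl) h3
    have h3 := mul_left_cancel₀ h2 h1
    rw [hcχ, hcχ] at h3
    have h4 := mul_left_cancel₀ (by exact_mod_cast hc.ne' : (c : ℂ) ≠ 0) h3
    rw [hs, hs, h4]
  obtain ⟨u, v, huv⟩ := exists_rook (mat g - 1)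
  obtain ⟨u', v', huv'⟩ := exists_rook (mat x - 1)
  have he := rook_unique θ hθ _ _ (nil_mul u v _ (subOne g).2) (nil_mul u' v' _ (subOne x).2)
    huv huv' (by
      intro i j hij a ha
      exact (Fsum_inv θ i j a _ u v).trans ((hF i j hij a ha).trans
        (Fsum_inv θ i j a _ u' v').symm))
  have e1 : ∀ g : U n F, mat g⁻¹ * mat g = 1 := fun g => by rw [← mat_mul, inv_mul_cancel, mat_one]
  have e2 : ∀ g : U n F, mat g * mat g⁻¹ = 1 := fun g => by rw [← mat_mul, mul_inv_cancel, mat_one]
  refine ⟨u⁻¹ * u', v' * v⁻¹, ?_⟩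
  have he' : mat u * (mat g - 1) * mat v = mat u' * (mat x - 1) * mat v' := he
  calc mat g - 1 = mat u⁻¹ * (mat u * (mat g - 1) * mat v) * mat v⁻¹ := by
        rw [← Matrix.mul_assoc, ← Matrix.mul_assoc, e1, Matrix.one_mul, Matrix.mul_assoc, e2,
          Matrix.mul_one]
    _ = _ := by rw [he', mat_mul, mat_mul]; simp only [Matrix.mul_assoc]

end Pool.Agent.Results.MP_1f99fc_al.Andre
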